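import Mathlib
import Pool.Agent.W872.CC.Defs
import Pool.Agent.Y467.CC.Comb
import Pool.Agent.Y467.CC.Game
import Pool.Agent.Y467.CC.Prec
import Pool.Agent.Y467.CC.Ex

/-!
# Every forcing notion with the countable chain condition which adds a real answers Q1

Let `I` be a precipitous ideal on `ω₂` and let `P` be any forcing notion with the countable chain
condition, of any size. Then `P` forces that `I` generates a precipitous ideal on `ω₂`, and if
`P` adds a real, then `P` forces that Choose has no winning strategy in `U(ω₂, ω)`. If moreover
`|P| ≤ ℵ₁`, then the continuum hypothesis is preserved. Cohen forcing and random forcing are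
examples.

Proof that no strategy survives. Let `p₀` force that `σ` is a winning strategy of Choose. For a
finite sequence `l` of cuts of the ground model, the sets of the ground model which contain the
current set of no extension of `l` form a name `J_l` for an ideal which is closed under
countable unions. By Ulam's theorem and the chain condition, it is forced that uncountably many
members of some disjoint family of the ground model are positive for `J_l`. So, given countably
many positions, there is one function `F : ω₂ → ω` of the ground model all of whose fibres are
forced to be positive for all of these positions (a version of the theorem of Alaoglu and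
Erdős). In the extension Cut steers the game into the fibre of `F_n` over `x(n)`, where `x` is
a new real; there are only countably many candidates for the next position, so `F_{n+1}` exists
in the ground model. A point `a` in the intersection would give `x(n) = F_n(a)` for all `n`, so
`x` would be in the ground model.

Precipitousness: below each condition of `P * P(ω₂)/J` every function from `ω₂` to the ordinals
agrees with a function of the ground model on the positive set of the condition.
-/

namespace Pool.Agent.Results.MP_4faeaf_lc.EveryCccReal

open Cardinal Pool.Agent.Helper669.Forcing Pool.Agent.W872.CC Pool.Agent.Y467.CC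

/-- Let `I` be a precipitous ideal on a set `K` of cardinality `ℵ₂` and let `P` be a forcing
notion with the countable chain condition. Every condition of `P` forces: all cardinals are
preserved, `I` generates an ideal on `ω₂`, and this ideal is precipitous. If `P` adds a real,
then every condition forces that Choose has no winning strategy in the games `U(ω₂, ω)` and
`U(ω₂, ≤ω)`. If the continuum hypothesis holds and `|P| ≤ ℵ₁`, then it is preserved.
Cohen forcing and random forcing satisfy the assumptions. -/
theorem result (K : Type) (hK : #K = ℵ_ 2) (I : Set (Set K)) (hI : IsIdeal I)
    (hp : Precipitous I) :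
    (∀ (P : Type) [Preorder P], CCC P →
      (∀ p : P, p ∈ CardinalsPreserved.{0, 0} P) ∧
      (∀ p : P, p ∈ GenIsIdeal P I) ∧
      GenPrecipitous P I ∧
      (AddsReal P →
        (∀ p : P, p ∈ fnot (ChooseHasStrategy P K)) ∧
        (∀ p : P, p ∈ fnot (ChooseHasStrategyLe P K))) ∧
      ((𝔠 : Cardinal.{0}) = ℵ_ 1 → #P ≤ ℵ_ 1 → ∀ p : P, p ∈ ContinuumLe P W1)) ∧
    (CCC Coh ∧ AddsReal Coh ∧ #Coh ≤ ℵ_ 1) ∧
    (CCC Rand ∧ AddsReal Rand ∧ #Rand ≤ 𝔠) := by
  refine ⟨fun P _ hc => ⟨cardinalsPreserved hc, genIsIdeal hc hI, genPrecipitous hc hI hp,
    fun hr => ⟨no_strategy hc (noSat_two hK.le) hr, no_strategyLe hc (noSat_two hK.le) hr⟩,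
    fun hCH hP => continuumLe hc hP hCH⟩, ⟨ccc_of_countable, cohen_addsReal, ?_⟩,
    ⟨rand_ccc, rand_addsReal, mk_rand⟩⟩
  exact mk_le_aleph0.trans (aleph0_le_aleph 1)

end Pool.Agent.Results.MP_4faeaf_lc.EveryCccReal
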